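import Pool.Agent.H413.G.R_seed8.H494R3.NK.Stmts

set_option autoImplicit false

/-!
An idempotent matrix that factors through a diagonal matrix `diag(r, ..., r)` is a summand of a
multiple of the class of `r`.
-/

namespace Pool.Agent.H36R3.NK

open Pool.Agent.H494R3.NK

universe u

section
variable {R : Type u} [NonUnitalRing R]

/-- the diagonal matrix with all entries `r` -/
def dg (r : R) (m : ℕ) : Matrix (Fin m) (Fin m) R := Matrix.diagonal (fun _ => r)

theorem dg_idem {r : R} (hr : r * r = r) (m : ℕ) : dg r m * dg r m = dg r m := by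
  unfold dg
  rw [Matrix.diagonal_mul_diagonal]
  simp [hr]

theorem s1_dg (r : R) : s1 r = dg r 1 := by
  ext i j
  fin_cases i
  fin_cases j
  simp [s1, dg]

theorem blk_dg (r : R) (m : ℕ) : blk (dg r m) (s1 r) = dg r (m + 1) := by
  rw [s1_dg]
  unfold blk dg
  rw [Matrix.fromBlocks_diagonal, Matrix.submatrix_diagonal_equiv]
  congr 1
  funext i
  show Sum.elim (fun _ => r) (fun _ => r) (finSumFinEquiv.symm i) = r
  rcases finSumFinEquiv.symm i with j | j <;> rfl

/-- the class of `diag(r, ..., r)` -/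
theorem cm_dg {r : R} (hr : r * r = r) (m : ℕ) : cm (dg_idem hr m) = m • cl hr := by
  induction m with
  | zero =>
    rw [zero_nsmul, VV.zero_mk]
    apply VV.mk_eq.2
    have h : dg r 0 = 0 := by
      ext i j
      exact i.elim0
    show Eqv (dg r 0) (0 : Matrix (Fin 0) (Fin 0) R)
    rw [h]
    exact Eqv.zero
  | succ m ih =>
    rw [succ_nsmul, ← ih]
    apply VV.mk_eq.2
    show Eqv (dg r (m + 1)) (blk (dg r m) (s1 r))
    rw [blk_dg]
    exact Eqv.refl (dg_idem hr (m + 1))

/-- orthogonal decomposition of an idempotent matrix -/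
theorem cm_add {m : ℕ} {g f d : Matrix (Fin m) (Fin m) R} (hg : g * g = g) (hf : f * f = f)
    (hd : d * d = d) (h : g + f = d) (h1 : g * f = 0) (h2 : f * g = 0) :
    cm hg + cm hf = cm hd := by
  apply VV.mk_eq.2
  show Eqv (blk g f) d
  refine Eqv.trans (blk_idem hg hf) hd (Eqv.blk hg hf).symm ?_
  refine ⟨Matrix.fromRows g f, Matrix.fromCols g f, ?_, ?_⟩
  · rw [rowcol, hg, hf, h1, h2]
  · rw [colrow, hg, hf, h]

end

theorem taskDom : TaskDom.{u} := by
  intro R _ r hr n m e he X Y h
  have h' : e = X * dg r m * Y := h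
  have hD := dg_idem hr m
  set D := dg r m with hDdef
  set x : Matrix (Fin n) (Fin m) R := e * (X * D) with hx
  set y : Matrix (Fin m) (Fin n) R := D * (Y * e) with hy
  have hxD : x * D = x := by
    rw [hx, Matrix.mul_assoc, Matrix.mul_assoc, hD]
  have hDy : D * y = y := by
    rw [hy, ← Matrix.mul_assoc, hD]
  have hex : e * x = x := by
    rw [hx, ← Matrix.mul_assoc, he]
  have hxy : x * y = e := by
    rw [hy, ← Matrix.mul_assoc, hxD, hx, Matrix.mul_assoc e, ← Matrix.mul_assoc (X * D), ← h', he, he]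
  set g : Matrix (Fin m) (Fin m) R := y * x with hgdef
  have hg : g * g = g := by
    rw [hgdef, Matrix.mul_assoc, ← Matrix.mul_assoc x, hxy, hex]
  have hgD : g * D = g := by
    rw [hgdef, Matrix.mul_assoc, hxD]
  have hDg : D * g = g := by
    rw [hgdef, ← Matrix.mul_assoc, hDy]
  have hf : (D - g) * (D - g) = D - g := by
    rw [Matrix.mul_sub, Matrix.sub_mul, Matrix.sub_mul, hD, hgD, hDg, hg]
    simp
  have hgf : g * (D - g) = 0 := by
    rw [Matrix.mul_sub, hgD, hg, sub_self]
  have hfg : (D - g) * g = 0 := by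
    rw [Matrix.sub_mul, hDg, hg, sub_self]
  refine ⟨cm hf, ?_⟩
  have e1 : cm he = cm hg := VV.mk_eq.2 ⟨x, y, hxy, rfl⟩
  rw [e1, cm_add hg hf hD (by abel) hgf hfg]
  exact cm_dg hr m

end Pool.Agent.H36R3.NK
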